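import Pool.Agent.B3E.UniRep

/-!
# A representation which detects a reduced word
-/

open Polynomial Matrix

namespace SurfU

/-- Matrix units which are unitriangular together with their inverses. -/
def UM (n : ℕ) : Subgroup (Matrix (Fin n) (Fin n) ℚ[X])ˣ where
  carrier := {u | (u : Matrix (Fin n) (Fin n) ℚ[X]) - 1 ∈ J n 1 ∧
    ((u⁻¹ : (Matrix (Fin n) (Fin n) ℚ[X])ˣ) : Matrix (Fin n) (Fin n) ℚ[X]) - 1 ∈ J n 1}
  one_mem' := by
    constructor
    · rw [Units.val_one, sub_self]; exact Submodule.zero_mem _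
    · rw [inv_one, Units.val_one, sub_self]; exact Submodule.zero_mem _
  mul_mem' := by
    rintro u v ⟨hu, hu'⟩ ⟨hv, hv'⟩
    refine ⟨?_, ?_⟩
    · rw [Units.val_mul]
      exact one_mul_mem hu hv
    · rw [_root_.mul_inv_rev, Units.val_mul]
      exact one_mul_mem hv' hu'
  inv_mem' := by
    rintro u ⟨hu, hu'⟩
    exact ⟨hu', by rwa [inv_inv]⟩

variable {K : Type}

open Classical in
/-- The matrix of the letter `y`: ones at the places of `y`. -/
noncomputable def Qm (l : ℕ) (lt : ℕ → Option (Option (K × ℤ))) (y : Option (K × ℤ)) :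
    Matrix (Fin (l + 1)) (Fin (l + 1)) ℚ :=
  fun i k => if (k : ℕ) = i + 1 ∧ lt i = some y then 1 else 0

open Classical in
/-- Interpolating polynomials. -/
noncomputable def pol (I : Finset ℤ) (j : K) : Option (Option (K × ℤ)) → ℚ[X]
  | some (some (j', t)) => if j' = j then Lagrange.basis I (fun i : ℤ => (i : ℚ)) t else 0
  | _ => 0

theorem pol_eval {I : Finset ℤ} {j : K} {t : ℤ} (ht : t ∈ I) {o : Option (Option (K × ℤ))}
    (ho : ∀ j' t', o = some (some (j', t')) → t' ∈ I) [Decidable (o = some (some (j, t)))] :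
    (pol I j o).eval (t : ℚ) = if o = some (some (j, t)) then 1 else 0 := by
  have hinj : Set.InjOn (fun i : ℤ => (i : ℚ)) I := fun a _ b _ h => Int.cast_injective (α := ℚ) h
  rcases o with _ | _ | ⟨j', t'⟩
  · simp [pol]
  · simp [pol]
  · have ht' := ho j' t' rfl
    by_cases hj : j' = j
    · subst hj
      by_cases htt : t' = t
      · subst htt
        have := Lagrange.eval_basis_self hinj ht
        simp only [pol, if_true]
        exact this
      · have := Lagrange.eval_basis_of_ne (v := fun i : ℤ => (i : ℚ)) htt ht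
        simp only [pol, if_true]
        rw [if_neg (by simpa using htt)]
        exact this
    · simp only [pol, if_neg hj, eval_zero]
      rw [if_neg]
      simp only [Option.some.injEq, Prod.mk.injEq, not_and]
      intro h
      exact absurd h hj

/-- The matrix of the generator `j`. -/
noncomputable def Pm (l : ℕ) (lt : ℕ → Option (Option (K × ℤ))) (I : Finset ℤ) (j : K) :
    Matrix (Fin (l + 1)) (Fin (l + 1)) ℚ[X] :=
  fun i k => if (k : ℕ) = i + 1 then pol I j (lt i) else 0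

theorem Pm_mem (l : ℕ) (lt : ℕ → Option (Option (K × ℤ))) (I : Finset ℤ) (j : K) :
    Pm l lt I j ∈ J (l + 1) 1 := by
  intro i k hik
  rw [Pm, if_neg (by omega)]

theorem Pm_eval {l : ℕ} {lt : ℕ → Option (Option (K × ℤ))} {I : Finset ℤ}
    (hI : ∀ i j t, lt i = some (some (j, t)) → t ∈ I) {j : K} {t : ℤ} (ht : t ∈ I)
    (a b : Fin (l + 1)) :
    ((1 + Pm l lt I j) a b).eval (t : ℚ) = (1 + Qm l lt (some (j, t))) a b := by
  classical
  rw [Matrix.add_apply, Matrix.add_apply, eval_add]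
  congr 1
  · by_cases h : a = b
    · subst h; simp
    · rw [Matrix.one_apply_ne h, Matrix.one_apply_ne h, eval_zero]
  · rw [Pm, Qm]
    by_cases h : (b : ℕ) = a + 1
    · rw [if_pos h, pol_eval ht (hI a)]
      simp [h]
    · rw [if_neg h, if_neg (fun h' => h h'.1), eval_zero]

theorem exists_rep (c : FreeGroup K) (l : ℕ) (lt : ℕ → Option (Option (K × ℤ)))
    (I : Finset ℤ) (hI : ∀ i j t, lt i = some (some (j, t)) → t ∈ I) :
    ∃ (Λ : ℕ) (A : (EndW (l + 1))ˣ) (X : K → (EndW (l + 1))ˣ), 0 < Λ ∧ A ∈ UA (l + 1) Λ ∧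
      (∀ j, X j ∈ UA (l + 1) Λ) ∧
      Bz (l + 1) 1 * A * (Bz (l + 1) 1)⁻¹ = FreeGroup.lift X c * A ∧
      Act A (1 + Qm l lt none) ∧
      ∀ j, ∀ t ∈ I, Act (Bz (l + 1) t * X j * (Bz (l + 1) t)⁻¹) (1 + Qm l lt (some (j, t))) := by
  classical
  -- the matrices of the generators
  choose u hu hu' using fun j : K => exists_unit (Pm_mem l lt I j)
  have hum : ∀ j, u j ∈ UM (l + 1) := fun j => by
    refine ⟨?_, hu' j⟩
    rw [hu, add_sub_cancel_left]
    exact Pm_mem l lt I j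
  have hcm : FreeGroup.lift u c ∈ UM (l + 1) := by
    induction c using FreeGroup.induction_on with
    | C1 => rw [map_one]; exact Subgroup.one_mem _
    | of x => rw [FreeGroup.lift_apply_of]; exact hum x
    | inv_of x _ => rw [map_inv, FreeGroup.lift_apply_of]; exact Subgroup.inv_mem _ (hum x)
    | mul x y hx hy => rw [map_mul]; exact Subgroup.mul_mem _ hx hy
  -- the matrix of `a`
  have hQ : (Qm l lt none).map (C : ℚ → ℚ[X]) ∈ J (l + 1) 1 := by
    intro i k hik
    rw [Matrix.map_apply, Qm, if_neg (by omega), C_0]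
  obtain ⟨R, hR1, hR2, hR3⟩ := exists_R
    ((FreeGroup.lift u c : (Matrix (Fin (l + 1)) (Fin (l + 1)) ℚ[X])ˣ) :
      Matrix (Fin (l + 1)) (Fin (l + 1)) ℚ[X]) (1 + (Qm l lt none).map (C : ℚ → ℚ[X])) hcm.1
    (by rw [add_sub_cancel_left]; exact hQ) (by
      ext1 i k
      rw [Matrix.map_apply, Matrix.add_apply, Matrix.map_apply, map_add, taylor_C]
      by_cases h : i = k
      · subst h; simp
      · rw [Matrix.one_apply_ne h, map_zero])
  obtain ⟨v, hv, hv'⟩ := exists_unit hR2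
  rw [add_sub_cancel] at hv
  -- only finitely many generators act
  have hfin : (insert v (Set.range u)).Finite := by
    refine Set.Finite.insert v ?_
    have hJ0 : {j : K | ∃ (i : Fin (l + 1)) (t : ℤ), lt i = some (some (j, t))}.Finite := by
      have h1 : {j : K | ∃ (i : Fin (l + 1)) (t : ℤ), lt i = some (some (j, t))} ⊆
          ⋃ i : Fin (l + 1), {j : K | ∃ t : ℤ, lt i = some (some (j, t))} := by
        rintro j ⟨i, t, h⟩
        exact Set.mem_iUnion.2 ⟨i, t, h⟩
      refine (Set.finite_iUnion fun i => ?_).subset h1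
      refine Set.Subsingleton.finite ?_
      rintro j ⟨t, ht⟩ j' ⟨t', ht'⟩
      rw [ht] at ht'
      simp only [Option.some.injEq, Prod.mk.injEq] at ht'
      exact ht'.1
    refine ((hJ0.image u).union (Set.finite_singleton 1)).subset ?_
    rintro _ ⟨j, rfl⟩
    by_cases hj : ∃ (i : Fin (l + 1)) (t : ℤ), lt i = some (some (j, t))
    · exact Or.inl ⟨j, hj, rfl⟩
    · right
      have h2 : Pm l lt I j = 0 := by
        ext1 i k
        rw [Pm, Matrix.zero_apply]
        split_ifs with hk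
        · rcases ho : lt i with _ | _ | ⟨j', t⟩
          · rfl
          · rfl
          · have : j' ≠ j := by
              rintro rfl
              exact hj ⟨i, t, ho⟩
            simp [pol, this]
        · rfl
      rw [Set.mem_singleton_iff]
      ext1
      rw [hu, h2, add_zero, Units.val_one]
  -- the bound for the degrees
  obtain ⟨Λ, hΛ⟩ : ∃ Λ : ℕ, ∀ w ∈ insert v (Set.range u), ∀ i k,
      (((w : Matrix (Fin (l + 1)) (Fin (l + 1)) ℚ[X]) - 1) i k).natDegree ≤ Λ ∧
      ((((w⁻¹ : (Matrix (Fin (l + 1)) (Fin (l + 1)) ℚ[X])ˣ) :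
        Matrix (Fin (l + 1)) (Fin (l + 1)) ℚ[X]) - 1) i k).natDegree ≤ Λ := by
    have h1 : ∀ w : (Matrix (Fin (l + 1)) (Fin (l + 1)) ℚ[X])ˣ, ∃ B : ℕ, ∀ i k,
        (((w : Matrix (Fin (l + 1)) (Fin (l + 1)) ℚ[X]) - 1) i k).natDegree ≤ B ∧
        ((((w⁻¹ : (Matrix (Fin (l + 1)) (Fin (l + 1)) ℚ[X])ˣ) :
          Matrix (Fin (l + 1)) (Fin (l + 1)) ℚ[X]) - 1) i k).natDegree ≤ B := by
      intro w
      obtain ⟨B1, hB1⟩ := (Set.finite_range fun z : Fin (l + 1) × Fin (l + 1) =>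
        (((w : Matrix (Fin (l + 1)) (Fin (l + 1)) ℚ[X]) - 1) z.1 z.2).natDegree).bddAbove
      obtain ⟨B2, hB2⟩ := (Set.finite_range fun z : Fin (l + 1) × Fin (l + 1) =>
        ((((w⁻¹ : (Matrix (Fin (l + 1)) (Fin (l + 1)) ℚ[X])ˣ) :
          Matrix (Fin (l + 1)) (Fin (l + 1)) ℚ[X]) - 1) z.1 z.2).natDegree).bddAbove
      exact ⟨max B1 B2, fun i k => ⟨(hB1 ⟨(i, k), rfl⟩).trans (le_max_left _ _),
        (hB2 ⟨(i, k), rfl⟩).trans (le_max_right _ _)⟩⟩
    choose B hB using h1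
    obtain ⟨Λ, hΛ⟩ := (hfin.image B).bddAbove
    exact ⟨Λ, fun w hw i k => ⟨((hB w i k).1).trans (hΛ ⟨w, hw, rfl⟩),
      ((hB w i k).2).trans (hΛ ⟨w, hw, rfl⟩)⟩⟩
  have hG : ∀ p : ℚ[X], p.natDegree ≤ Λ → p ∈ degreeLT ℚ (Λ + 1) := fun p hp => by
    rw [mem_degreeLT]
    refine lt_of_le_of_lt degree_le_natDegree ?_
    exact_mod_cast Nat.lt_succ_of_le hp
  have key : ∀ w : (Matrix (Fin (l + 1)) (Fin (l + 1)) ℚ[X])ˣ, w ∈ UM (l + 1) →
      (∀ i k, ((w : Matrix (Fin (l + 1)) (Fin (l + 1)) ℚ[X]) - 1) i k ∈ degreeLT ℚ (Λ + 1)) →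
      (∀ i k, (((w⁻¹ : (Matrix (Fin (l + 1)) (Fin (l + 1)) ℚ[X])ˣ) :
        Matrix (Fin (l + 1)) (Fin (l + 1)) ℚ[X]) - 1) i k ∈ degreeLT ℚ (Λ + 1)) →
      Units.map (io (l + 1)) w ∈ UA (l + 1) (Λ + 1) := by
    intro w hw h1 h2
    have e : ∀ M : Matrix (Fin (l + 1)) (Fin (l + 1)) ℚ[X],
        io (l + 1) M - 1 = io (l + 1) (M - 1) := by
      intro M
      refine LinearMap.ext fun f => ?_
      change M *ᵥ f - f = (M - 1) *ᵥ f
      rw [sub_mulVec, one_mulVec]
    refine ⟨?_, ?_⟩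
    · rw [Units.coe_map]
      change Low _ _ (io (l + 1) _ - 1)
      rw [e]
      exact low_io hw.1 h1
    · rw [← map_inv, Units.coe_map]
      change Low _ _ (io (l + 1) _ - 1)
      rw [e]
      exact low_io hw.2 h2
  refine ⟨Λ + 1, Units.map (io (l + 1)) v, fun j => Units.map (io (l + 1)) (u j), Nat.succ_pos _,
    ?_, ?_, ?_, ?_, ?_⟩
  · refine key v ⟨?_, hv'⟩ (fun i k => hG _ (hΛ v (Set.mem_insert _ _) i k).1)
      (fun i k => hG _ (hΛ v (Set.mem_insert _ _) i k).2)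
    rw [hv]
    exact hR2
  · exact fun j => key (u j) (hum j)
      (fun i k => hG _ (hΛ (u j) (Set.mem_insert_of_mem _ ⟨j, rfl⟩) i k).1)
      (fun i k => hG _ (hΛ (u j) (Set.mem_insert_of_mem _ ⟨j, rfl⟩) i k).2)
  · have h1 : FreeGroup.lift (fun j => Units.map (io (l + 1)) (u j)) c =
        Units.map (io (l + 1)) (FreeGroup.lift u c) := by
      have : FreeGroup.lift (fun j => Units.map (io (l + 1)) (u j)) =
          (Units.map (io (l + 1))).comp (FreeGroup.lift u) := by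
        ext1 j
        simp
      rw [this]
      rfl
    rw [mul_inv_eq_iff_eq_mul, h1]
    ext1
    rw [Units.val_mul, Units.val_mul, Units.val_mul, Units.coe_map, Units.coe_map]
    change Bs (l + 1) ((1 : ℤ) : ℚ) * io (l + 1) v = io (l + 1) _ * io (l + 1) v * Bs (l + 1) ((1 : ℤ) : ℚ)
    rw [Int.cast_one, Bs_io, hv, hR1, map_mul]
  · have h := act_io (M := v) 0 (A := 1 + Qm l lt none) (by
      intro j k
      rw [hv, Int.cast_zero, hR3, Matrix.add_apply, Matrix.add_apply, Matrix.map_apply, eval_add,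
        eval_C]
      congr 1
      by_cases h : j = k
      · subst h; simp
      · rw [Matrix.one_apply_ne h, Matrix.one_apply_ne h, eval_zero])
    have e : Bz (l + 1) 0 = 1 := by
      rw [← Bz_zpow, zpow_zero]
    rwa [e, one_mul, inv_one, mul_one] at h
  · intro j t ht
    refine act_io (M := u j) t ?_
    intro a b
    rw [hu, Pm_eval hI ht]

/-! ### The Magnus entry -/

theorem Qm_sq {l : ℕ} {lt : ℕ → Option (Option (K × ℤ))} {y : Option (K × ℤ)}
    (h : ∀ i, lt i = some y → lt (i + 1) ≠ some y) : Qm l lt y * Qm l lt y = 0 := by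
  classical
  ext1 i k
  rw [Matrix.mul_apply, Matrix.zero_apply]
  refine Finset.sum_eq_zero fun m _ => ?_
  unfold Qm
  by_cases h1 : (m : ℕ) = i + 1 ∧ lt i = some y
  · rw [if_neg (c := (k : ℕ) = m + 1 ∧ lt m = some y), mul_zero]
    rintro ⟨_, h3⟩
    rw [h1.1] at h3
    exact h i h1.2 h3
  · rw [if_neg h1, zero_mul]

/-- The vector `v` starts at the position `k`. -/
def Starts {l : ℕ} (k : ℕ) (v : Fin (l + 1) → ℚ) : Prop :=
  (∀ i : Fin (l + 1), (i : ℕ) < k → v i = 0) ∧ ∃ h : k < l + 1, v ⟨k, h⟩ ≠ 0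

theorem starts_step {l k : ℕ} {lt : ℕ → Option (Option (K × ℤ))} {y : Option (K × ℤ)}
    (hk : lt k = some y) {q : ℚ} (hq : q ≠ 0) {v : Fin (l + 1) → ℚ} (hv : Starts (k + 1) v) :
    Starts k ((1 + q • Qm l lt y) *ᵥ v) := by
  classical
  obtain ⟨h1, h2, h3⟩ := hv
  have e : ∀ i : Fin (l + 1), ((1 + q • Qm l lt y) *ᵥ v) i = v i + q * ((Qm l lt y) *ᵥ v) i := by
    intro i
    rw [add_mulVec, one_mulVec, smul_mulVec]
    rfl
  refine ⟨?_, by omega, ?_⟩
  · intro i hi
    rw [e, h1 i (by omega), zero_add, mulVec, dotProduct, Finset.sum_eq_zero, mul_zero]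
    intro m _
    unfold Qm
    by_cases h4 : (m : ℕ) = i + 1 ∧ lt i = some y
    · rw [h1 m (by omega), mul_zero]
    · rw [if_neg h4, zero_mul]
  · rw [e, h1 _ (by simp), zero_add, mulVec, dotProduct, Finset.sum_eq_single ⟨k + 1, h2⟩]
    · rw [Qm, if_pos ⟨rfl, hk⟩, one_mul]
      exact mul_ne_zero hq h3
    · intro m _ hm
      unfold Qm
      rw [if_neg, zero_mul]
      rintro ⟨h4, _⟩
      exact hm (Fin.ext h4)
    · intro h
      exact absurd (Finset.mem_univ _) h

end SurfU
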