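import Mathlib

/-!
# Discrete antiderivatives of rational polynomials
-/

open Polynomial

namespace SurfU

/-- The shift `p(X) ↦ p(X + 1)` lowers the degree after subtraction of the identity. -/
theorem sub_mem (r : ℚ) {d : ℕ} {p : ℚ[X]} (hp : p ∈ degreeLT ℚ (d + 1)) :
    taylor r p - p ∈ degreeLT ℚ d := by
  rw [mem_degreeLT] at hp ⊢
  by_cases h0 : p = 0
  · rw [h0, map_zero, sub_zero, degree_zero]
    exact WithBot.bot_lt_coe _
  have h1 : (taylor r p - p).degree < (taylor r p).degree :=
    degree_sub_lt_left (degree_taylor p r) (by rwa [Ne, taylor_eq_zero]) (leadingCoeff_taylor r p)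
  rw [degree_taylor] at h1
  have h2 : p.degree ≤ (d : WithBot ℕ) := by
    rw [degree_eq_natDegree h0] at hp ⊢
    have := WithBot.coe_lt_coe.1 hp
    exact WithBot.coe_le_coe.2 (by simpa using Nat.lt_succ_iff.1 this)
  exact lt_of_lt_of_le h1 h2

theorem exists_anti_aux (d : ℕ) : ∀ p ∈ degreeLT ℚ d, ∃ q : ℚ[X], taylor 1 q - q = p := by
  induction d with
  | zero =>
    intro p hp
    have h0 : p = 0 := by
      rw [mem_degreeLT] at hp
      by_contra h
      rw [degree_eq_natDegree h] at hp
      exact absurd (WithBot.coe_lt_coe.1 hp) (Nat.not_lt_zero _)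
    exact ⟨0, by rw [h0, map_zero, sub_zero]⟩
  | succ d ih =>
    intro p hp
    set q1 : ℚ[X] := C (p.coeff d / (d + 1 : ℚ)) * X ^ (d + 1) with hq1
    have hmem : q1 ∈ degreeLT ℚ (d + 1 + 1) := by
      rw [mem_degreeLT]
      refine lt_of_le_of_lt (degree_C_mul_X_pow_le _ _) ?_
      exact_mod_cast Nat.lt_succ_self (d + 1)
    have h2 : p - (taylor 1 q1 - q1) ∈ degreeLT ℚ d := by
      have h3 : p - (taylor 1 q1 - q1) ∈ degreeLT ℚ (d + 1) :=
        Submodule.sub_mem _ hp (sub_mem 1 hmem)
      have h4 : (p - (taylor 1 q1 - q1)).coeff d = 0 := by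
        have hd : (d + 1 : ℚ) ≠ 0 := by positivity
        have h5 : (taylor (1 : ℚ) q1).coeff d = p.coeff d := by
          rw [hq1, taylor_mul, taylor_C, taylor_X_pow, coeff_C_mul, C_1, coeff_X_add_one_pow,
            Nat.choose_succ_self_right]
          push_cast
          field_simp
        have h6 : q1.coeff d = 0 := by
          rw [hq1, coeff_C_mul, coeff_X_pow, if_neg (by omega), mul_zero]
        rw [coeff_sub, coeff_sub, h5, h6, sub_zero, sub_self]
      rw [mem_degreeLT, degree_lt_iff_coeff_zero] at h3 ⊢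
      intro m hm
      rcases Nat.eq_or_lt_of_le hm with h | h
      · rw [← h]; exact h4
      · exact h3 m h
    obtain ⟨q2, hq2⟩ := ih _ h2
    refine ⟨q1 + q2, ?_⟩
    rw [map_add]
    linear_combination hq2

theorem exists_anti (p : ℚ[X]) : ∃ q : ℚ[X], taylor 1 q - q = p ∧ q.eval 0 = 0 := by
  obtain ⟨q, hq⟩ := exists_anti_aux (p.natDegree + 1) p (by
    rw [mem_degreeLT]
    exact lt_of_le_of_lt degree_le_natDegree (by exact_mod_cast Nat.lt_succ_self _))
  refine ⟨q - C (q.eval 0), ?_, by simp⟩
  rw [map_sub, taylor_C]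
  linear_combination hq

open Classical in
/-- A discrete antiderivative, vanishing at `0`. -/
noncomputable def anti (p : ℚ[X]) : ℚ[X] := if p = 0 then 0 else (exists_anti p).choose

theorem anti_zero : anti 0 = 0 := by simp [anti]

theorem anti_spec (p : ℚ[X]) : taylor 1 (anti p) - anti p = p := by
  unfold anti
  split_ifs with h
  · rw [h, map_zero, sub_zero]
  · exact (exists_anti p).choose_spec.1

theorem anti_eval (p : ℚ[X]) : (anti p).eval 0 = 0 := by
  unfold anti
  split_ifs with h
  · simp
  · exact (exists_anti p).choose_spec.2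

end SurfU
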