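import Pool.Agent.B3E.MagRep

/-!
# Groups with the relation `b a b⁻¹ = c(x) a` are residually unipotent
-/

open Polynomial Matrix

namespace SurfU

section nf

variable {S : Type*} [Group S] {K : Type}

/-- The free generators of the kernel of the exponent of `b`. -/
def lets (a b : S) (x : K → S) : Option (K × ℤ) → S
  | none => a
  | some (j, t) => b ^ t * x j * (b ^ t)⁻¹

/-- The subgroup generated by them. -/
def Ker (a b : S) (x : K → S) : Subgroup S := Subgroup.closure (Set.range (lets a b x))

variable {a b : S} {x : K → S}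

theorem lets_mem (y : Option (K × ℤ)) : lets a b x y ∈ Ker a b x :=
  Subgroup.subset_closure ⟨y, rfl⟩

theorem lift_mem (t : ℤ) (v : FreeGroup K) :
    b ^ t * FreeGroup.lift x v * (b ^ t)⁻¹ ∈ Ker a b x := by
  induction v using FreeGroup.induction_on with
  | C1 => rw [map_one, mul_one, mul_inv_cancel]; exact Subgroup.one_mem _
  | of j => rw [FreeGroup.lift_apply_of]; exact lets_mem (a := a) (some (j, t))
  | inv_of j _ =>
    rw [map_inv, FreeGroup.lift_apply_of]
    have h := Subgroup.inv_mem _ (lets_mem (a := a) (b := b) (x := x) (some (j, t)))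
    have e : (lets a b x (some (j, t)))⁻¹ = b ^ t * (x j)⁻¹ * (b ^ t)⁻¹ := by
      simp [lets, mul_assoc]
    rwa [e] at h
  | mul v w hv hw =>
    have e : b ^ t * FreeGroup.lift x (v * w) * (b ^ t)⁻¹ =
        (b ^ t * FreeGroup.lift x v * (b ^ t)⁻¹) * (b ^ t * FreeGroup.lift x w * (b ^ t)⁻¹) := by
      rw [map_mul]
      group
    rw [e]
    exact Subgroup.mul_mem _ hv hw

theorem conj_mem {c : FreeGroup K} (hrel : b * a * b⁻¹ = FreeGroup.lift x c * a) {k : S}
    (hk : k ∈ Ker a b x) : b * k * b⁻¹ ∈ Ker a b x ∧ b⁻¹ * k * b ∈ Ker a b x := by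
  induction hk using Subgroup.closure_induction with
  | mem k hk =>
    obtain ⟨y, rfl⟩ := hk
    rcases y with _ | ⟨j, t⟩
    · change b * a * b⁻¹ ∈ _ ∧ b⁻¹ * a * b ∈ _
      constructor
      · rw [hrel]
        have h := lift_mem (a := a) (b := b) (x := x) 0 c
        rw [zpow_zero, one_mul, inv_one, mul_one] at h
        exact Subgroup.mul_mem _ h (lets_mem (b := b) (x := x) none)
      · have h := lift_mem (a := a) (b := b) (x := x) (-1) c
        have e : b⁻¹ * a * b = (b ^ (-1 : ℤ) * FreeGroup.lift x c * (b ^ (-1 : ℤ))⁻¹)⁻¹ * a := by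
          have h2 : FreeGroup.lift x c = b * a * b⁻¹ * a⁻¹ := by rw [hrel]; group
          rw [h2]
          group
        rw [e]
        exact Subgroup.mul_mem _ (Subgroup.inv_mem _ h) (lets_mem (b := b) (x := x) none)
    · constructor
      · have e : b * lets a b x (some (j, t)) * b⁻¹ = lets a b x (some (j, t + 1)) := by
          simp only [lets]
          group
        rw [e]
        exact lets_mem _
      · have e : b⁻¹ * lets a b x (some (j, t)) * b = lets a b x (some (j, t - 1)) := by
          simp only [lets]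
          group
        rw [e]
        exact lets_mem _
  | one => simp
  | mul u v _ _ hu hv =>
    constructor
    · have e : b * (u * v) * b⁻¹ = (b * u * b⁻¹) * (b * v * b⁻¹) := by group
      rw [e]
      exact Subgroup.mul_mem _ hu.1 hv.1
    · have e : b⁻¹ * (u * v) * b = (b⁻¹ * u * b) * (b⁻¹ * v * b) := by group
      rw [e]
      exact Subgroup.mul_mem _ hu.2 hv.2
  | inv u _ hu =>
    constructor
    · have e : b * u⁻¹ * b⁻¹ = (b * u * b⁻¹)⁻¹ := by group
      rw [e]
      exact Subgroup.inv_mem _ hu.1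
    · have e : b⁻¹ * u⁻¹ * b = (b⁻¹ * u * b)⁻¹ := by group
      rw [e]
      exact Subgroup.inv_mem _ hu.2

theorem zconj_mem {c : FreeGroup K} (hrel : b * a * b⁻¹ = FreeGroup.lift x c * a) (n : ℤ) :
    ∀ k ∈ Ker a b x, b ^ n * k * (b ^ n)⁻¹ ∈ Ker a b x := by
  induction n with
  | zero => intro k hk; simpa using hk
  | succ n ih =>
    intro k hk
    have e : b ^ ((n : ℤ) + 1) * k * (b ^ ((n : ℤ) + 1))⁻¹ =
        b ^ (n : ℤ) * (b * k * b⁻¹) * (b ^ (n : ℤ))⁻¹ := by
      rw [_root_.zpow_add_one]
      group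
    rw [e]
    exact ih _ (conj_mem hrel hk).1
  | pred n ih =>
    intro k hk
    have e : b ^ (-(n : ℤ) - 1) * k * (b ^ (-(n : ℤ) - 1))⁻¹ =
        b ^ (-(n : ℤ)) * (b⁻¹ * k * b) * (b ^ (-(n : ℤ)))⁻¹ := by
      rw [_root_.zpow_sub_one]
      group
    rw [e]
    exact ih _ (conj_mem hrel hk).2

theorem nf {c : FreeGroup K} (hrel : b * a * b⁻¹ = FreeGroup.lift x c * a)
    (hgen : Subgroup.closure (insert a (insert b (Set.range x))) = ⊤) (s : S) :
    ∃ k ∈ Ker a b x, ∃ n : ℤ, s = k * b ^ n := by
  have hs : s ∈ Subgroup.closure (insert a (insert b (Set.range x))) := by rw [hgen]; trivial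
  induction hs using Subgroup.closure_induction with
  | mem k hk =>
    rcases hk with rfl | rfl | ⟨j, rfl⟩
    · exact ⟨k, lets_mem (b := b) (x := x) none, 0, by simp⟩
    · exact ⟨1, Subgroup.one_mem _, 1, by simp⟩
    · refine ⟨_, lets_mem (a := a) (b := b) (x := x) (some (j, 0)), 0, by simp [lets]⟩
  | one => exact ⟨1, Subgroup.one_mem _, 0, by simp⟩
  | mul u v _ _ hu hv =>
    obtain ⟨k, hk, n, rfl⟩ := hu
    obtain ⟨k', hk', m, rfl⟩ := hv
    refine ⟨k * (b ^ n * k' * (b ^ n)⁻¹), Subgroup.mul_mem _ hk (zconj_mem hrel n _ hk'), n + m, ?_⟩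
    rw [_root_.zpow_add]
    group
  | inv u _ hu =>
    obtain ⟨k, hk, n, rfl⟩ := hu
    refine ⟨b ^ (-n) * k⁻¹ * (b ^ (-n))⁻¹, zconj_mem hrel _ _ (Subgroup.inv_mem _ hk), -n, ?_⟩
    group

end nf

/-! ### The free product of the infinite cyclic groups of the letters -/

/-- the free group on the letters, as a free product. -/
abbrev FP (K : Type) := Monoid.CoprodI (fun _ : Option (K × ℤ) => Multiplicative ℤ)

/-- evaluation of a word. -/
noncomputable def phi {S : Type*} [Group S] {K : Type} (L : Option (K × ℤ) → S) : FP K →* S :=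
  Monoid.CoprodI.lift fun y => zpowersHom S (L y)

theorem phi_of {S : Type*} [Group S] {K : Type} (L : Option (K × ℤ) → S) (y : Option (K × ℤ))
    (m : Multiplicative ℤ) :
    phi L (Monoid.CoprodI.of (i := y) m) = L y ^ (Multiplicative.toAdd m) := by
  rw [phi, Monoid.CoprodI.lift_of]
  rfl

theorem ker_le {S : Type*} [Group S] {K : Type} {a b : S} {x : K → S} :
    Ker a b x ≤ (phi (lets a b x)).range := by
  rw [Ker, Subgroup.closure_le]
  rintro _ ⟨y, rfl⟩
  refine ⟨Monoid.CoprodI.of (i := y) (Multiplicative.ofAdd 1), ?_⟩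
  rw [phi_of, toAdd_ofAdd, zpow_one]

theorem phi_comp {S T : Type*} [Group S] [Group T] {K : Type} (L : Option (K × ℤ) → S)
    (f : S →* T) (w : FP K) : f (phi L w) = phi (fun y => f (L y)) w := by
  have : f.comp (phi L) = phi (fun y => f (L y)) := by
    refine Monoid.CoprodI.ext_hom _ _ fun y => ?_
    ext1
    simp [phi]
  rw [← this]
  rfl

/-- The last basis vector. -/
noncomputable def dl (l : ℕ) : W (l + 1) := Pi.single (Fin.last l) 1

theorem dl_mem {l Λ : ℕ} (hΛ : 0 < Λ) : dl l ∈ V (l + 1) Λ 0 := by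
  intro k
  by_cases hk : k = Fin.last l
  · subst hk
    rw [dl, Pi.single_eq_same, mem_degreeLT, degree_one]
    have : 0 < Λ * (l + 1 - (Fin.last l : ℕ)) - 0 := by
      rw [Fin.val_last]
      simp [hΛ]
    exact_mod_cast this
  · rw [dl, Pi.single_eq_of_ne hk]
    exact Submodule.zero_mem _

theorem starts_dl (l : ℕ) : Starts l (ev (dl l)) := by
  refine ⟨fun i hi => ?_, by omega, ?_⟩
  · have hne : i ≠ Fin.last l := by
      rintro rfl
      simp at hi
    simp [ev, dl, Pi.single_eq_of_ne hne]
  · have he : (⟨l, by omega⟩ : Fin (l + 1)) = Fin.last l := rfl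
    rw [he]
    simp [ev, dl]

/-- **The Magnus entry of a reduced word is not zero.** -/
theorem starts_word {K : Type} {ls : List (Σ _ : Option (K × ℤ), Multiplicative ℤ)}
    (hne : ∀ p ∈ ls, p.2 ≠ 1) (hch : ls.IsChain fun p p' => p.1 ≠ p'.1)
    (L : Option (K × ℤ) → (EndW (ls.length + 1))ˣ)
    (hL : ∀ p ∈ ls, Act (L p.1) (1 + Qm ls.length (fun i => (ls[i]?).map Sigma.fst) p.1)) :
    ∀ (t pre : List (Σ _ : Option (K × ℤ), Multiplicative ℤ)), ls = pre ++ t →
      Starts pre.length (ev (((phi L (t.map fun p => Monoid.CoprodI.of (i := p.1) p.2).prod :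
        (EndW (ls.length + 1))ˣ) : EndW (ls.length + 1)) (dl ls.length))) := by
  intro t
  induction t with
  | nil =>
    intro pre h
    rw [List.append_nil] at h
    subst h
    rw [List.map_nil, List.prod_nil, map_one]
    exact starts_dl _
  | cons p t ih =>
    intro pre h
    have h1 := ih (pre ++ [p]) (by rw [h, List.append_assoc]; rfl)
    rw [List.length_append, List.length_singleton] at h1
    rw [List.map_cons, List.prod_cons, map_mul, phi_of, Units.val_mul, Module.End.mul_apply]
    have hp : p ∈ ls := by rw [h]; simp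
    have hQ : Qm ls.length (fun i => (ls[i]?).map Sigma.fst) p.1 *
        Qm ls.length (fun i => (ls[i]?).map Sigma.fst) p.1 = 0 := by
      refine Qm_sq fun i h2 h3 => ?_
      rw [Option.map_eq_some_iff] at h2 h3
      obtain ⟨p1, h4, h5⟩ := h2
      obtain ⟨p2, h6, h7⟩ := h3
      obtain ⟨h8, h9⟩ := List.getElem?_eq_some_iff.1 h4
      obtain ⟨h10, h11⟩ := List.getElem?_eq_some_iff.1 h6
      have h12 := List.isChain_iff_getElem.1 hch i h10
      rw [h9, h11, h5, h7] at h12
      exact h12 rfl
    have h2 := act_zpow hQ (hL p hp) (Multiplicative.toAdd p.2)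
    rw [h2]
    refine starts_step ?_ ?_ h1
    · rw [h, List.getElem?_append_right (le_refl _), Nat.sub_self]
      rfl
    · have := hne p hp
      intro h3
      apply this
      have h4 : Multiplicative.toAdd p.2 = 0 := by exact_mod_cast h3
      exact Multiplicative.toAdd.injective h4

/-- the universal property of the relation `b a b⁻¹ = c(x) a`. -/
def Univ {S : Type*} [Group S] {K : Type} (c : FreeGroup K) (a b : S) (x : K → S) : Prop :=
  ∀ (H : Type) [Group H] (A B : H) (X : K → H), B * A * B⁻¹ = FreeGroup.lift X c * A →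
    ∃ f : S →* H, f a = A ∧ f b = B ∧ ∀ j, f (x j) = X j

/-- A nontrivial word is detected by a unipotent representation. -/
theorem detect {S : Type*} [Group S] {K : Type} (c : FreeGroup K) (a b : S) (x : K → S)
    (huniv : Univ c a b x) (w : FP K) (hw1 : w ≠ 1) :
    ∃ (l Λ : ℕ) (f : S →* (EndW (l + 1))ˣ), f a ∈ UA (l + 1) Λ ∧ f b ∈ UA (l + 1) Λ ∧
      (∀ j, f (x j) ∈ UA (l + 1) Λ) ∧ ∃ g ∈ V (l + 1) Λ 0,
        ((f (phi (lets a b x) w) : (EndW (l + 1))ˣ) : EndW (l + 1)) g ≠ g := by
  classical
  set wd := Monoid.CoprodI.Word.equiv w with hwd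
  have hw : w = wd.prod := by rw [hwd]; exact (Monoid.CoprodI.Word.equiv.symm_apply_apply w).symm
  set ls := wd.toList with hls
  have hls0 : ls ≠ [] := by
    intro h
    apply hw1
    rw [hw, Monoid.CoprodI.Word.prod, ← hls, h, List.map_nil, List.prod_nil]
  set I : Finset ℤ := (ls.filterMap fun p => p.1.map Prod.snd).toFinset with hI
  have hI' : ∀ (i : ℕ) (j : K) (t : ℤ), (ls[i]?).map Sigma.fst = some (some (j, t)) → t ∈ I := by
    intro i j t h
    rw [Option.map_eq_some_iff] at h
    obtain ⟨p, h1, h2⟩ := h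
    rw [hI, List.mem_toFinset, List.mem_filterMap]
    exact ⟨p, List.mem_of_getElem? h1, by rw [h2]; rfl⟩
  obtain ⟨Λ, A, X, hΛ, hA, hX, hr, hA2, hX2⟩ :=
    exists_rep c ls.length (fun i => (ls[i]?).map Sigma.fst) I hI'
  obtain ⟨f, f1, f2, f3⟩ := huniv _ A (Bz _ 1) X hr
  refine ⟨ls.length, Λ, f, by rw [f1]; exact hA, by rw [f2]; exact Bz_mem 1,
    fun j => by rw [f3]; exact hX j, dl ls.length, dl_mem hΛ, ?_⟩
  have h1 := starts_word wd.ne_one wd.chain_ne (fun y => f (lets a b x y)) (by
    intro p hp
    rcases hp1 : p.1 with _ | ⟨j, t⟩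
    · change Act (f a) _
      rw [f1]
      exact hA2
    · change Act (f (b ^ t * x j * (b ^ t)⁻¹)) _
      rw [map_mul, map_mul, map_inv, map_zpow, f2, f3, Bz_zpow]
      refine hX2 j t ?_
      rw [hI, List.mem_toFinset, List.mem_filterMap]
      exact ⟨p, hp, by rw [hp1]; rfl⟩) ls [] rfl
  intro h2
  have h3 : f (phi (lets a b x) w) = phi (fun y => f (lets a b x y))
      (ls.map fun p => Monoid.CoprodI.of (i := p.1) p.2).prod := by
    rw [phi_comp, hw]
    rfl
  rw [← h3, h2] at h1
  obtain ⟨_, h4, h5⟩ := h1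
  apply h5
  have hl : 0 < ls.length := List.length_pos_iff.2 hls0
  exact (starts_dl ls.length).1 _ hl

/-- The letters are free generators. -/
theorem phi_inj {S : Type*} [Group S] {K : Type} {c : FreeGroup K} {a b : S} {x : K → S}
    (huniv : Univ c a b x) : Function.Injective (phi (lets a b x)) := by
  rw [injective_iff_map_eq_one]
  intro w hw
  by_contra hne
  obtain ⟨l, Λ, f, _, _, _, g, _, hg⟩ := detect c a b x huniv w hne
  apply hg
  rw [hw, map_one]
  rfl

/-- **Residual unipotence.** -/
theorem resUnip_of {S : Type*} [Group S] {K : Type} (c : FreeGroup K) (a b : S)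
    (x : K → S) (hrel : b * a * b⁻¹ = FreeGroup.lift x c * a)
    (hgen : Subgroup.closure (insert a (insert b (Set.range x))) = ⊤)
    (huniv : Univ c a b x) (s : S) (hs : s ≠ 1) :
    ∃ (n Λ : ℕ) (ψ : S →* E n Λ), (∀ y, ψ y - 1 ∈ F n Λ 1) ∧ ψ s ≠ 1 := by
  classical
  -- from a homomorphism into the units to `ψ`
  have key : ∀ (n Λ : ℕ) (f : S →* (EndW n)ˣ), f a ∈ UA n Λ → f b ∈ UA n Λ →
      (∀ j, f (x j) ∈ UA n Λ) → (∃ g ∈ V n Λ 0, ((f s : (EndW n)ˣ) : EndW n) g ≠ g) →
      ∃ (ψ : S →* E n Λ), (∀ y, ψ y - 1 ∈ F n Λ 1) ∧ ψ s ≠ 1 := by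
    intro n Λ f h1 h2 h3 ⟨g, hg, hgs⟩
    have h4 : ∀ y, f y ∈ UA n Λ := by
      intro y
      have hy : y ∈ Subgroup.closure (insert a (insert b (Set.range x))) := by rw [hgen]; trivial
      have hle : Subgroup.closure (insert a (insert b (Set.range x))) ≤ (UA n Λ).comap f := by
        rw [Subgroup.closure_le]
        rintro _ (rfl | rfl | ⟨j, rfl⟩)
        · exact h1
        · exact h2
        · exact h3 j
      exact hle hy
    refine ⟨(res n Λ).comp (f.codRestrict (UA n Λ) h4), fun y => res_sub _, fun h => hgs ?_⟩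
    have h5 : ((res n Λ).comp (f.codRestrict (UA n Λ) h4)) s ⟨g, hg⟩ = ⟨g, hg⟩ := by
      rw [h]
      rfl
    exact congrArg Subtype.val h5
  obtain ⟨k, hk, n, rfl⟩ := nf hrel hgen s
  obtain ⟨w, rfl⟩ := ker_le hk
  by_cases hn : n = 0
  · -- the exponent of `b` is zero
    subst hn
    rw [zpow_zero, mul_one] at hs key ⊢
    obtain ⟨l, Λ, f, h1, h2, h3, h4⟩ := detect c a b x huniv w (by
      rintro rfl
      exact hs (map_one _))
    exact ⟨l + 1, Λ, key _ _ f h1 h2 h3 h4⟩
  · -- the exponent of `b` is not zero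
    obtain ⟨f, f1, f2, f3⟩ := huniv (EndW 1)ˣ 1 (Bz 1 1) (fun _ => 1) (by
      have : FreeGroup.lift (fun _ : K => (1 : (EndW 1)ˣ)) = 1 := by
        ext1 j
        simp
      rw [this, mul_one, mul_inv_cancel]
      rfl)
    refine ⟨1, 2, key 1 2 f (by rw [f1]; exact Subgroup.one_mem _) (by rw [f2]; exact Bz_mem 1)
      (fun j => by rw [f3]; exact Subgroup.one_mem _) ⟨fun _ => X, ?_, ?_⟩⟩
    · intro k
      rw [mem_degreeLT, degree_X]
      have : 1 < 2 * (1 - (k : ℕ)) - 0 := by
        have := k.2
        omega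
      exact_mod_cast this
    · have h1 : f (phi (lets a b x) w) = 1 := by
        rw [phi_comp]
        have : (fun y => f (lets a b x y)) = fun _ => 1 := by
          funext y
          rcases y with _ | ⟨j, t⟩
          · exact f1
          · change f (b ^ t * x j * (b ^ t)⁻¹) = 1
            rw [map_mul, map_mul, map_inv, f3, mul_one, mul_inv_cancel]
        rw [this]
        have : phi (fun _ : Option (K × ℤ) => (1 : (EndW 1)ˣ)) = 1 := by
          refine Monoid.CoprodI.ext_hom _ _ fun y => ?_
          ext1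
          simp [phi]
        rw [this]
        rfl
      rw [map_mul, h1, one_mul, map_zpow, f2, Bz_zpow]
      intro h2
      have h3 := congrFun h2 0
      change taylor (n : ℚ) X = X at h3
      rw [taylor_X] at h3
      have h4 : C (n : ℚ) = 0 := by
        have := congrArg (fun p => p - X) h3
        simpa using this
      rw [C_eq_zero] at h4
      exact hn (by exact_mod_cast h4)

/-! ### Freeness in the form of free groups -/

/-- The homomorphism of the free group on the letters. -/
def iot {S : Type*} [Group S] {K : Type} (a b : S) (x : K → S) :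
    FreeGroup (Option (K × ℤ)) →* S := FreeGroup.lift (lets a b x)

theorem iot_inj {S : Type*} [Group S] {K : Type} {c : FreeGroup K} {a b : S} {x : K → S}
    (huniv : Univ c a b x) : Function.Injective (iot a b x) := by
  let κ : FreeGroup (Option (K × ℤ)) →* FP K :=
    FreeGroup.lift fun y => Monoid.CoprodI.of (i := y) (Multiplicative.ofAdd 1)
  let μ : FP K →* FreeGroup (Option (K × ℤ)) := phi FreeGroup.of
  have h1 : μ.comp κ = MonoidHom.id _ := by
    ext1 y
    simp only [MonoidHom.comp_apply, κ, μ, FreeGroup.lift_apply_of, phi_of, toAdd_ofAdd, zpow_one,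
      MonoidHom.id_apply]
  have h2 : iot a b x = (phi (lets a b x)).comp κ := by
    ext1 y
    simp only [iot, MonoidHom.comp_apply, κ, FreeGroup.lift_apply_of, phi_of, toAdd_ofAdd, zpow_one]
  have h3 : Function.Injective κ := by
    intro u v huv
    have := congrArg μ huv
    rw [← MonoidHom.comp_apply, ← MonoidHom.comp_apply, h1] at this
    exact this
  rw [h2]
  exact (phi_inj huniv).comp h3

theorem ker_le' {S : Type*} [Group S] {K : Type} {a b : S} {x : K → S} :
    Ker a b x ≤ (iot a b x).range := by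
  rw [Ker, Subgroup.closure_le]
  rintro _ ⟨y, rfl⟩
  exact ⟨FreeGroup.of y, FreeGroup.lift_apply_of⟩

/-! ### Free products of injective maps -/

/-- The group of the level. -/
def ML (K : Type) : Option ℤ → Type
  | none => FreeGroup Unit
  | some _ => FreeGroup K

instance (K : Type) (i : Option ℤ) : Group (ML K i) := by
  cases i
  · exact inferInstanceAs (Group (FreeGroup Unit))
  · exact inferInstanceAs (Group (FreeGroup K))

/-- Free products of injective homomorphisms are injective. -/
theorem coprod_inj {ι : Type*} {M N : ι → Type*} [∀ i, Group (M i)] [∀ i, Group (N i)]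
    (f : ∀ i, M i →* N i) (hf : ∀ i, Function.Injective (f i)) :
    Function.Injective (Monoid.CoprodI.lift fun i => (Monoid.CoprodI.of (i := i)).comp (f i)) := by
  classical
  rw [injective_iff_map_eq_one]
  intro w hw
  set wd := Monoid.CoprodI.Word.equiv w with hwd
  have hwp : w = wd.prod := by rw [hwd]; exact (Monoid.CoprodI.Word.equiv.symm_apply_apply w).symm
  let wd' : Monoid.CoprodI.Word N := ⟨wd.toList.map fun p => ⟨p.1, f p.1 p.2⟩, by
    intro p hp h
    obtain ⟨q, hq, rfl⟩ := List.mem_map.1 hp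
    exact wd.ne_one q hq (hf q.1 (by rw [map_one]; exact h)), by
    rw [List.isChain_map]
    exact wd.chain_ne⟩
  have h1 : wd'.prod = Monoid.CoprodI.lift
      (fun i => (Monoid.CoprodI.of (i := i)).comp (f i)) w := by
    rw [hwp, Monoid.CoprodI.Word.prod, Monoid.CoprodI.Word.prod, map_list_prod, List.map_map,
      List.map_map]
    congr 1
  rw [hw] at h1
  have h2 : wd' = Monoid.CoprodI.Word.empty := by
    have h3 : Monoid.CoprodI.Word.equiv.symm wd' =
        Monoid.CoprodI.Word.equiv.symm Monoid.CoprodI.Word.empty := by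
      change wd'.prod = Monoid.CoprodI.Word.empty.prod
      rw [h1, Monoid.CoprodI.Word.prod_empty]
    exact Monoid.CoprodI.Word.equiv.symm.injective h3
  have h3 : wd.toList = [] := by
    have h4 : wd'.toList = [] := by rw [h2]; rfl
    exact List.map_eq_nil_iff.1 h4
  rw [hwp, Monoid.CoprodI.Word.prod, h3, List.map_nil, List.prod_nil]

/-- The homomorphism between the kernels, level by level. -/
def lev {A Z : Type} (θ : FreeGroup A →* FreeGroup Z) :
    FreeGroup (Option (A × ℤ)) →* FreeGroup (Option (Z × ℤ)) :=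
  FreeGroup.lift fun y => match y with
    | none => FreeGroup.of none
    | some (j, t) => FreeGroup.map (fun z => some (z, t)) (θ (FreeGroup.of j))

theorem lev_inj {A Z : Type} (θ : FreeGroup A →* FreeGroup Z) (hθ : Function.Injective θ) :
    Function.Injective (lev θ) := by
  let al : ∀ K : Type, FreeGroup (Option (K × ℤ)) →* Monoid.CoprodI (ML K) := fun K =>
    FreeGroup.lift fun y => match y with
      | none => Monoid.CoprodI.of (M := ML K) (i := none) (FreeGroup.of () : FreeGroup Unit)
      | some (k, t) => Monoid.CoprodI.of (M := ML K) (i := some t) (FreeGroup.of k : FreeGroup K)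
  let be : Monoid.CoprodI (ML A) →* FreeGroup (Option (A × ℤ)) :=
    Monoid.CoprodI.lift fun i => match i with
      | none => (FreeGroup.lift (fun _ => FreeGroup.of none) : FreeGroup Unit →* _)
      | some t => (FreeGroup.map (fun k => some (k, t)) : FreeGroup A →* _)
  let fi : ∀ i, ML A i →* ML Z i := fun i => match i with
    | none => MonoidHom.id (FreeGroup Unit)
    | some _ => θ
  have hfi : ∀ i, Function.Injective (fi i) := by
    rintro (_ | t)
    · exact Function.injective_id
    · exact hθ
  have h1 : be.comp (al A) = MonoidHom.id _ := by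
    ext1 y
    rcases y with _ | ⟨k, t⟩
    · simp only [MonoidHom.comp_apply, al, be, FreeGroup.lift_apply_of, Monoid.CoprodI.lift_of,
        MonoidHom.id_apply]
      exact FreeGroup.lift_apply_of
    · simp only [MonoidHom.comp_apply, al, be, FreeGroup.lift_apply_of, Monoid.CoprodI.lift_of,
        MonoidHom.id_apply]
      exact FreeGroup.map.of
  have h2 : Function.Injective (al A) := by
    intro u v huv
    have := congrArg be huv
    rw [← MonoidHom.comp_apply, ← MonoidHom.comp_apply, h1] at this
    exact this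
  have h3 : (al Z).comp (lev θ) =
      (Monoid.CoprodI.lift fun i => (Monoid.CoprodI.of (i := i)).comp (fi i)).comp (al A) := by
    ext1 y
    rcases y with _ | ⟨k, t⟩
    · simp only [MonoidHom.comp_apply, al, lev, FreeGroup.lift_apply_of, Monoid.CoprodI.lift_of]
      rfl
    · simp only [MonoidHom.comp_apply, al, lev, FreeGroup.lift_apply_of, Monoid.CoprodI.lift_of]
      have h4 : (al Z).comp (FreeGroup.map fun z => some (z, t)) =
          (Monoid.CoprodI.of (M := ML Z) (i := some t) : FreeGroup Z →* _) := by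
        ext1 z
        simp only [MonoidHom.comp_apply, al, FreeGroup.map.of, FreeGroup.lift_apply_of]
        rfl
      exact DFunLike.congr_fun h4 (θ (FreeGroup.of k))
  have h5 : Function.Injective ((al Z).comp (lev θ)) := by
    rw [h3]
    exact (coprod_inj fi hfi).comp h2
  exact Function.Injective.of_comp h5

end SurfU
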