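import Pool.Agent.B3E.ShiftPoly

/-!
# Unitriangular matrices over `ℚ[X]` and the equation `R(X + 1) = C(X) R(X)`
-/

open Polynomial Matrix

namespace SurfU

/-- Matrices supported on the `m`-th superdiagonal and above. -/
def J (n m : ℕ) : Submodule ℚ (Matrix (Fin n) (Fin n) ℚ[X]) where
  carrier := {M | ∀ i j : Fin n, (j : ℕ) < i + m → M i j = 0}
  add_mem' := by
    intro a b ha hb i j h
    rw [Matrix.add_apply, ha i j h, hb i j h, add_zero]
  zero_mem' := by
    intro i j _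
    rfl
  smul_mem' := by
    intro c a ha i j h
    rw [Matrix.smul_apply, ha i j h, smul_zero]

variable {n : ℕ}

theorem mem_J {m : ℕ} {M : Matrix (Fin n) (Fin n) ℚ[X]} :
    M ∈ J n m ↔ ∀ i j : Fin n, (j : ℕ) < i + m → M i j = 0 := Iff.rfl

theorem J_anti {m m' : ℕ} (h : m ≤ m') : J n m' ≤ J n m := by
  intro M hM i j hij
  exact hM i j (by omega)

theorem J_mul {a b : ℕ} {x y : Matrix (Fin n) (Fin n) ℚ[X]} (hx : x ∈ J n a) (hy : y ∈ J n b) :
    x * y ∈ J n (a + b) := by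
  intro i j hij
  rw [Matrix.mul_apply]
  refine Finset.sum_eq_zero fun k _ => ?_
  by_cases hk : (k : ℕ) < i + a
  · rw [hx i k hk, zero_mul]
  · rw [hy k j (by omega), mul_zero]

theorem J_one : (1 : Matrix (Fin n) (Fin n) ℚ[X]) ∈ J n 0 := by
  intro i j hij
  rw [Matrix.one_apply_ne]
  rintro rfl
  omega

theorem J_top {m : ℕ} (hm : n ≤ m) {M : Matrix (Fin n) (Fin n) ℚ[X]} (h : M ∈ J n m) : M = 0 := by
  ext1 i j
  exact h i j (by have := j.2; omega)

theorem J_pow {x : Matrix (Fin n) (Fin n) ℚ[X]} (hx : x ∈ J n 1) (m : ℕ) : x ^ m ∈ J n m := by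
  induction m with
  | zero => rw [pow_zero]; exact J_one
  | succ m ih => rw [pow_succ]; exact J_mul ih hx

theorem J_zero_of {x : Matrix (Fin n) (Fin n) ℚ[X]} (hx : x - 1 ∈ J n 1) : x ∈ J n 0 := by
  have := Submodule.add_mem _ (J_anti (Nat.zero_le 1) hx) (J_one (n := n))
  rwa [sub_add_cancel] at this

theorem one_mul_mem {x y : Matrix (Fin n) (Fin n) ℚ[X]} (hx : x - 1 ∈ J n 1) (hy : y - 1 ∈ J n 1) :
    x * y - 1 ∈ J n 1 := by
  have h : x * y - 1 = (x - 1) * y + (y - 1) := by noncomm_ring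
  rw [h]
  exact Submodule.add_mem _ (J_mul hx (J_zero_of hy)) hy

/-- Matrices in `1 + J` are units, with inverse in `1 + J`. -/
theorem exists_unit {N : Matrix (Fin n) (Fin n) ℚ[X]} (hN : N ∈ J n 1) :
    ∃ u : (Matrix (Fin n) (Fin n) ℚ[X])ˣ, (u : Matrix (Fin n) (Fin n) ℚ[X]) = 1 + N ∧
      ((u⁻¹ : (Matrix (Fin n) (Fin n) ℚ[X])ˣ) : Matrix (Fin n) (Fin n) ℚ[X]) - 1 ∈ J n 1 := by
  have hN' : -N ∈ J n 1 := Submodule.neg_mem _ hN
  have h0 : (-N) ^ (n + 1) = 0 := J_top (Nat.le_succ n) (J_pow hN' (n + 1))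
  have h1 : (1 + N) * ∑ i ∈ Finset.range (n + 1), (-N) ^ i = 1 := by
    have := mul_neg_geom_sum (-N) (n + 1)
    rwa [sub_neg_eq_add, h0, sub_zero] at this
  have h2 : (∑ i ∈ Finset.range (n + 1), (-N) ^ i) * (1 + N) = 1 := by
    have := geom_sum_mul_neg (-N) (n + 1)
    rwa [sub_neg_eq_add, h0, sub_zero] at this
  refine ⟨⟨1 + N, _, h1, h2⟩, rfl, ?_⟩
  change (∑ i ∈ Finset.range (n + 1), (-N) ^ i) - 1 ∈ J n 1
  rw [Finset.sum_range_succ', pow_zero, add_sub_cancel_right]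
  refine Submodule.sum_mem _ fun i _ => ?_
  exact J_anti (by omega) (J_pow hN' (i + 1))

/-- Entrywise discrete antiderivative of `(C - 1) Y`. -/
noncomputable def stepR (C Y : Matrix (Fin n) (Fin n) ℚ[X]) : Matrix (Fin n) (Fin n) ℚ[X] :=
  ((C - 1) * Y).map anti

theorem stepR_mem {C Y : Matrix (Fin n) (Fin n) ℚ[X]} (hC : C - 1 ∈ J n 1) (hY : Y ∈ J n 0) :
    stepR C Y ∈ J n 1 := by
  intro i j hij
  rw [stepR, Matrix.map_apply, J_mul hC hY i j (by omega), anti_zero]

theorem stepR_sub {C Y Y' : Matrix (Fin n) (Fin n) ℚ[X]} {m : ℕ} (hC : C - 1 ∈ J n 1)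
    (hY : Y' - Y ∈ J n m) : stepR C Y' - stepR C Y ∈ J n (m + 1) := by
  intro i j hij
  have h := J_mul hC hY i j (by omega)
  rw [mul_sub, Matrix.sub_apply, sub_eq_zero] at h
  rw [Matrix.sub_apply, stepR, stepR, Matrix.map_apply, Matrix.map_apply, h, sub_self]

/-- **The equation `R(X + 1) = C(X) R(X)`** with given constant value at `0`. -/
theorem exists_R (C R0 : Matrix (Fin n) (Fin n) ℚ[X]) (hC : C - 1 ∈ J n 1) (hR0 : R0 - 1 ∈ J n 1)
    (hc : R0.map (taylor 1) = R0) :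
    ∃ R : Matrix (Fin n) (Fin n) ℚ[X], R.map (taylor 1) = C * R ∧ R - 1 ∈ J n 1 ∧
      ∀ i j, (R i j).eval 0 = (R0 i j).eval 0 := by
  set Y : ℕ → Matrix (Fin n) (Fin n) ℚ[X] := fun m => (fun Z => R0 + stepR C Z)^[m] R0 with hYdef
  have hYs : ∀ m, Y (m + 1) = R0 + stepR C (Y m) := by
    intro m
    simp only [hYdef, Function.iterate_succ_apply']
  have hY0 : ∀ m, Y m ∈ J n 0 := by
    intro m
    induction m with
    | zero => exact J_zero_of hR0
    | succ m ih =>
      rw [hYs]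
      exact Submodule.add_mem _ (J_zero_of hR0) (J_anti (Nat.zero_le _) (stepR_mem hC ih))
  have hYd : ∀ m, Y (m + 1) - Y m ∈ J n (m + 1) := by
    intro m
    induction m with
    | zero =>
      have h : Y (0 + 1) - Y 0 = stepR C (Y 0) := by
        rw [hYs]
        change R0 + stepR C (Y 0) - R0 = _
        rw [add_sub_cancel_left]
      rw [h]
      exact stepR_mem hC (hY0 0)
    | succ m ih =>
      rw [hYs (m + 1)]
      nth_rewrite 2 [hYs m]
      rw [add_sub_add_left_eq_sub]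
      exact stepR_sub hC ih
  have hfix : Y n = R0 + stepR C (Y n) := by
    rw [← hYs]
    exact (sub_eq_zero.1 (J_top (Nat.le_succ n) (hYd n))).symm
  refine ⟨Y n, ?_, ?_, ?_⟩
  · ext1 i j
    have h1 : Y n i j = R0 i j + anti (((C - 1) * Y n) i j) := by
      conv_lhs => rw [hfix]
      rfl
    have h2 : taylor 1 (R0 i j) = R0 i j := by
      conv_rhs => rw [← hc]
      rfl
    have h3 := anti_spec (((C - 1) * Y n) i j)
    have h4 : ((C - 1) * Y n) i j = (C * Y n) i j - Y n i j := by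
      rw [sub_mul, one_mul, Matrix.sub_apply]
    rw [Matrix.map_apply]
    rw [h4] at h1 h3
    have h5 : taylor 1 (Y n i j) = taylor 1 (R0 i j) + taylor 1 (anti ((C * Y n) i j - Y n i j)) := by
      conv_lhs => rw [h1]
      rw [map_add]
    rw [h5, h2]
    linear_combination h3 - h1
  · have h : Y n - 1 = (R0 - 1) + stepR C (Y n) := by
      conv_lhs => rw [hfix]
      abel
    rw [h]
    exact Submodule.add_mem _ hR0 (stepR_mem hC (hY0 n))
  · intro i j
    have h1 : Y n i j = R0 i j + anti (((C - 1) * Y n) i j) := by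
      conv_lhs => rw [hfix]
      rfl
    rw [h1, eval_add, anti_eval, add_zero]

end SurfU
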