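import Pool.Agent.B3E.TriMat

/-!
# Operators on polynomial vectors

The group generated by the shift and by unitriangular matrices over `ℚ[X]` acts on the space of
vectors of polynomials; it lowers the weight filtration `V`.
-/

open Polynomial Matrix

namespace SurfU

/-- Polynomial vectors. -/
abbrev W (n : ℕ) := Fin n → ℚ[X]

/-- The weight filtration. -/
def V (n Λ m : ℕ) : Submodule ℚ (W n) where
  carrier := {f | ∀ k : Fin n, f k ∈ degreeLT ℚ (Λ * (n - k) - m)}
  add_mem' := fun ha hb k => Submodule.add_mem _ (ha k) (hb k)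
  zero_mem' := fun _ => Submodule.zero_mem _
  smul_mem' := fun c _ ha k => Submodule.smul_mem _ c (ha k)

variable {n Λ : ℕ}

theorem V_anti {m m' : ℕ} (h : m ≤ m') : V n Λ m' ≤ V n Λ m :=
  fun _ hf k => degreeLT_mono (by omega) (hf k)

theorem degreeLT_zero {p : ℚ[X]} (h : p ∈ degreeLT ℚ 0) : p = 0 := by
  rw [mem_degreeLT] at h
  by_contra h0
  rw [degree_eq_natDegree h0] at h
  exact absurd (WithBot.coe_lt_coe.1 h) (Nat.not_lt_zero _)

theorem V_bot {m : ℕ} (h : Λ * n ≤ m) {f : W n} (hf : f ∈ V n Λ m) : f = 0 := by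
  funext k
  apply degreeLT_zero
  have h1 : Λ * (n - k) ≤ Λ * n := Nat.mul_le_mul_left _ (Nat.sub_le _ _)
  have h2 : Λ * (n - k) - m = 0 := by omega
  have := hf k
  rwa [h2] at this

/-- The ambient algebra. -/
abbrev EndW (n : ℕ) := Module.End ℚ (W n)

/-- Matrices as operators. -/
noncomputable def io (n : ℕ) : Matrix (Fin n) (Fin n) ℚ[X] →* EndW n where
  toFun M := (M.mulVecLin).restrictScalars ℚ
  map_one' := by
    refine LinearMap.ext fun f => ?_
    change (1 : Matrix (Fin n) (Fin n) ℚ[X]) *ᵥ f = f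
    exact one_mulVec f
  map_mul' := by
    intro M N
    refine LinearMap.ext fun f => ?_
    change (M * N) *ᵥ f = M *ᵥ (N *ᵥ f)
    rw [mulVec_mulVec]

theorem io_apply (M : Matrix (Fin n) (Fin n) ℚ[X]) (f : W n) : io n M f = M *ᵥ f := rfl

/-- The shift by `r`. -/
noncomputable def Bs (n : ℕ) (r : ℚ) : EndW n :=
  LinearMap.pi fun k => (taylor r).comp (LinearMap.proj k)

theorem Bs_apply (r : ℚ) (f : W n) (k : Fin n) : Bs n r f k = taylor r (f k) := rfl

theorem Bs_add (r s : ℚ) : Bs n (r + s) = Bs n r * Bs n s := by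
  refine LinearMap.ext fun f => ?_
  funext k
  rw [Module.End.mul_apply, Bs_apply, Bs_apply, Bs_apply, taylor_taylor]

theorem Bs_zero : Bs n 0 = 1 := by
  refine LinearMap.ext fun f => ?_
  funext k
  rw [Bs_apply, taylor_zero]
  rfl

/-- The shift as a homomorphism from the integers. -/
noncomputable def Bz (n : ℕ) (i : ℤ) : (EndW n)ˣ where
  val := Bs n i
  inv := Bs n (-i)
  val_inv := by rw [← Bs_add, add_neg_cancel, Bs_zero]
  inv_val := by rw [← Bs_add, neg_add_cancel, Bs_zero]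

theorem Bz_add (i j : ℤ) : Bz n (i + j) = Bz n i * Bz n j := by
  ext1
  change Bs n ((i + j : ℤ) : ℚ) = Bs n i * Bs n j
  rw [← Bs_add]
  push_cast
  rfl

theorem Bz_zpow (i : ℤ) : Bz n 1 ^ i = Bz n i := by
  induction i with
  | zero =>
    ext1
    change (1 : EndW n) = Bs n ((0 : ℤ) : ℚ)
    rw [Int.cast_zero, Bs_zero]
  | succ i ih => rw [_root_.zpow_add_one, ih, ← Bz_add]
  | pred i ih =>
    rw [_root_.zpow_sub_one, ih, mul_inv_eq_iff_eq_mul, ← Bz_add]
    congr 1
    ring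

theorem Bs_io (r : ℚ) (M : Matrix (Fin n) (Fin n) ℚ[X]) :
    Bs n r * io n M = io n (M.map (taylor r)) * Bs n r := by
  refine LinearMap.ext fun f => ?_
  funext k
  rw [Module.End.mul_apply, Module.End.mul_apply, Bs_apply, io_apply, io_apply, mulVec, mulVec,
    dotProduct, dotProduct, map_sum]
  refine Finset.sum_congr rfl fun i _ => ?_
  rw [taylor_mul]
  rfl

/-- `T` lowers the weight. -/
def Low (n Λ : ℕ) (T : EndW n) : Prop := ∀ m f, f ∈ V n Λ m → T f ∈ V n Λ (m + 1)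

theorem low_io {M : Matrix (Fin n) (Fin n) ℚ[X]} (hM : M ∈ J n 1)
    (hd : ∀ i j, M i j ∈ degreeLT ℚ Λ) : Low n Λ (io n M) := by
  intro m f hf k
  rw [io_apply, mulVec, dotProduct]
  refine Submodule.sum_mem _ fun i _ => ?_
  by_cases hik : (i : ℕ) < k + 1
  · rw [hM k i hik, zero_mul]
    exact Submodule.zero_mem _
  · have h1 := hf i
    by_cases h0 : f i = 0
    · rw [h0, mul_zero]
      exact Submodule.zero_mem _
    by_cases h2 : M k i = 0
    · rw [h2, zero_mul]
      exact Submodule.zero_mem _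
    have h3 := hd k i
    rw [mem_degreeLT, degree_eq_natDegree h0] at h1
    rw [mem_degreeLT, degree_eq_natDegree h2] at h3
    rw [mem_degreeLT, degree_eq_natDegree (mul_ne_zero h2 h0), natDegree_mul h2 h0]
    have h1' : (f i).natDegree < Λ * (n - i) - m := by exact_mod_cast h1
    have h3' : (M k i).natDegree < Λ := by exact_mod_cast h3
    have h4 : Λ * (n - i) + Λ ≤ Λ * (n - k) := by
      rw [← Nat.mul_succ]
      apply Nat.mul_le_mul_left
      have := i.2
      omega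
    have h5 : (M k i).natDegree + (f i).natDegree < Λ * (n - k) - (m + 1) := by omega
    exact_mod_cast h5

theorem low_Bs (r : ℚ) : Low n Λ (Bs n r - 1) := by
  intro m f hf k
  have h1 := hf k
  change taylor r (f k) - f k ∈ _
  rcases Nat.eq_zero_or_pos (Λ * (n - k) - m) with h | h
  · rw [h] at h1
    rw [degreeLT_zero h1, map_zero, sub_zero]
    exact Submodule.zero_mem _
  · obtain ⟨d, hd⟩ : ∃ d, Λ * (n - k) - m = d + 1 := ⟨_, (Nat.succ_pred_eq_of_pos h).symm⟩
    rw [hd] at h1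
    have : Λ * (n - k) - (m + 1) = d := by omega
    rw [this]
    exact sub_mem r h1

/-- The units `u` such that `u - 1` and `u⁻¹ - 1` lower the weight. -/
def UA (n Λ : ℕ) : Subgroup (EndW n)ˣ where
  carrier := {u | Low n Λ ((u : EndW n) - 1) ∧ Low n Λ (((u⁻¹ : (EndW n)ˣ) : EndW n) - 1)}
  one_mem' := by
    constructor
    · intro m f _
      simp
    · intro m f _
      simp
  mul_mem' := by
    have key : ∀ {S T : EndW n}, Low n Λ (S - 1) → Low n Λ (T - 1) → Low n Λ (S * T - 1) := by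
      intro S T hS hT m f hf
      have h1 : T f ∈ V n Λ m := by
        have h := V_anti (Nat.le_succ m) (hT m f hf)
        have h2 : T f = (T - 1) f + f := by simp
        rw [h2]
        exact Submodule.add_mem _ h hf
      have h2 : (S * T - 1) f = (S - 1) (T f) + (T - 1) f := by
        simp [Module.End.mul_apply]
      rw [h2]
      exact Submodule.add_mem _ (hS m _ h1) (hT m f hf)
    rintro u v ⟨hu, hu'⟩ ⟨hv, hv'⟩
    refine ⟨?_, ?_⟩
    · rw [Units.val_mul]
      exact key hu hv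
    · rw [_root_.mul_inv_rev, Units.val_mul]
      exact key hv' hu'
  inv_mem' := by
    rintro u ⟨hu, hu'⟩
    exact ⟨hu', by rwa [inv_inv]⟩

theorem mem_UA {u : (EndW n)ˣ} : u ∈ UA n Λ ↔
    Low n Λ ((u : EndW n) - 1) ∧ Low n Λ (((u⁻¹ : (EndW n)ˣ) : EndW n) - 1) := Iff.rfl

theorem UA_stable {u : (EndW n)ˣ} (hu : u ∈ UA n Λ) {m : ℕ} {f : W n} (hf : f ∈ V n Λ m) :
    (u : EndW n) f ∈ V n Λ m := by
  have h := V_anti (Nat.le_succ m) (hu.1 m f hf)
  have h2 : (u : EndW n) f = ((u : EndW n) - 1) f + f := by simp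
  rw [h2]
  exact Submodule.add_mem _ h hf

theorem Bz_mem (i : ℤ) : Bz n i ∈ UA n Λ := ⟨low_Bs _, low_Bs _⟩

/-! ### The filtered algebra -/

/-- The algebra. -/
abbrev E (n Λ : ℕ) := Module.End ℚ (V n Λ 0)

/-- Its filtration. -/
def F (n Λ : ℕ) (i : ℕ) : Submodule ℚ (E n Λ) where
  carrier := {T | ∀ m (f : V n Λ 0), (f : W n) ∈ V n Λ m → ((T f : V n Λ 0) : W n) ∈ V n Λ (m + i)}
  add_mem' := fun ha hb m f hf => Submodule.add_mem _ (ha m f hf) (hb m f hf)
  zero_mem' := fun _ _ _ => Submodule.zero_mem _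
  smul_mem' := fun c _ ha m f hf => Submodule.smul_mem _ c (ha m f hf)

theorem F_anti : Antitone (F n Λ) := fun _ _ h _ hT m f hf => V_anti (by omega) (hT m f hf)

theorem F_mul {i j : ℕ} {S T : E n Λ} (hS : S ∈ F n Λ i) (hT : T ∈ F n Λ j) :
    S * T ∈ F n Λ (i + j) := by
  intro m f hf
  have h := hS (m + j) (T f) (hT m f hf)
  have e : m + (i + j) = m + j + i := by omega
  rw [e]
  exact h

theorem F_bot : F n Λ (Λ * n) = ⊥ := by
  rw [eq_bot_iff]
  intro T hT
  rw [Submodule.mem_bot]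
  ext1 f
  apply Subtype.ext
  exact V_bot (by omega) (hT 0 f f.2)

/-- Restriction to `V 0`. -/
noncomputable def res (n Λ : ℕ) : UA n Λ →* E n Λ where
  toFun u := ((u : (EndW n)ˣ) : EndW n).restrict fun _ hf => UA_stable u.2 hf
  map_one' := by
    ext1 f
    rfl
  map_mul' := by
    intro u v
    ext1 f
    rfl

theorem res_apply (u : UA n Λ) (f : V n Λ 0) :
    ((res n Λ u f : V n Λ 0) : W n) = ((u : (EndW n)ˣ) : EndW n) f := rfl

theorem res_sub (u : UA n Λ) : res n Λ u - 1 ∈ F n Λ 1 := by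
  intro m f hf
  exact u.2.1 m f hf

/-! ### Evaluation at `0` -/

/-- Evaluation at `0`. -/
noncomputable def ev (f : W n) : Fin n → ℚ := fun k => (f k).eval 0

/-- `u` acts on the values at `0` by the matrix `A`. -/
def Act (u : (EndW n)ˣ) (A : Matrix (Fin n) (Fin n) ℚ) : Prop :=
  ∀ f, ev ((u : EndW n) f) = A *ᵥ ev f

theorem Act.mul {u v : (EndW n)ˣ} {A B : Matrix (Fin n) (Fin n) ℚ} (hu : Act u A) (hv : Act v B) :
    Act (u * v) (A * B) := by
  intro f
  rw [Units.val_mul, Module.End.mul_apply, hu, hv, mulVec_mulVec]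

theorem act_one : Act (1 : (EndW n)ˣ) 1 := by
  intro f
  rw [one_mulVec]
  rfl

theorem act_pow {u : (EndW n)ˣ} {Q : Matrix (Fin n) (Fin n) ℚ} (hQ : Q * Q = 0)
    (hu : Act u (1 + Q)) (m : ℕ) : Act (u ^ m) (1 + (m : ℚ) • Q) := by
  induction m with
  | zero => rw [pow_zero, Nat.cast_zero, zero_smul, add_zero]; exact act_one
  | succ m ih =>
    rw [pow_succ]
    have h := ih.mul hu
    have e : (1 + (m : ℚ) • Q) * (1 + Q) = 1 + ((m + 1 : ℕ) : ℚ) • Q := by
      have e1 : (1 + (m : ℚ) • Q) * (1 + Q) = 1 + (m : ℚ) • Q + Q + (m : ℚ) • (Q * Q) := by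
        rw [add_mul, one_mul, mul_add, mul_one, smul_mul_assoc]
        abel
      rw [e1, hQ, smul_zero, add_zero]
      push_cast
      rw [add_smul, one_smul, add_assoc]
    rwa [e] at h

theorem act_inv {u : (EndW n)ˣ} {Q : Matrix (Fin n) (Fin n) ℚ} (hQ : Q * Q = 0)
    (hu : Act u (1 + Q)) : Act u⁻¹ (1 + -Q) := by
  intro f
  have h := hu (((u⁻¹ : (EndW n)ˣ) : EndW n) f)
  have h1 : (u : EndW n) (((u⁻¹ : (EndW n)ˣ) : EndW n) f) = f := by
    rw [← Module.End.mul_apply, Units.mul_inv]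
    rfl
  rw [h1] at h
  rw [h, mulVec_mulVec]
  have e : (1 + -Q) * (1 + Q) = 1 := by
    have e1 : (1 + -Q) * (1 + Q) = 1 - Q * Q := by noncomm_ring
    rw [e1, hQ, sub_zero]
  rw [e, one_mulVec]

theorem act_zpow {u : (EndW n)ˣ} {Q : Matrix (Fin n) (Fin n) ℚ} (hQ : Q * Q = 0)
    (hu : Act u (1 + Q)) (m : ℤ) : Act (u ^ m) (1 + (m : ℚ) • Q) := by
  obtain ⟨k, rfl | rfl⟩ := m.eq_nat_or_neg
  · rw [zpow_natCast]
    exact_mod_cast act_pow hQ hu k
  · rw [_root_.zpow_neg, zpow_natCast, ← inv_pow]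
    have h := act_pow (Q := -Q) (by rw [neg_mul_neg, hQ]) (act_inv hQ hu) k
    have e : (((-(k : ℤ) : ℤ)) : ℚ) • Q = (k : ℚ) • -Q := by
      push_cast
      rw [neg_smul, smul_neg]
    rwa [e]

theorem act_io {M : (Matrix (Fin n) (Fin n) ℚ[X])ˣ} (i : ℤ) {A : Matrix (Fin n) (Fin n) ℚ}
    (hA : ∀ j k, ((M : Matrix (Fin n) (Fin n) ℚ[X]) j k).eval (i : ℚ) = A j k) :
    Act (Bz n i * Units.map (io n) M * (Bz n i)⁻¹) A := by
  intro f
  have h1 : ((Bz n i * Units.map (io n) M * (Bz n i)⁻¹ : (EndW n)ˣ) : EndW n) =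
      io n ((M : Matrix (Fin n) (Fin n) ℚ[X]).map (taylor (i : ℚ))) := by
    rw [Units.val_mul, Units.val_mul, Units.coe_map]
    change Bs n i * io n M * _ = _
    rw [Bs_io, mul_assoc]
    change _ * ((Bz n i : EndW n) * ((Bz n i)⁻¹ : (EndW n)ˣ)) = _
    rw [Units.mul_inv, mul_one]
  rw [h1]
  funext k
  change eval 0 ((io n _ f) k) = _
  rw [io_apply, mulVec, mulVec, dotProduct, dotProduct, eval_finsetSum]
  refine Finset.sum_congr rfl fun j _ => ?_
  rw [eval_mul, Matrix.map_apply, taylor_eval, zero_add, hA]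
  rfl

end SurfU
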